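import Pool.Agent.N973.ND.Stm

/-!
# Project DM (helper843): the natural density in the residue classes

The machine ND of helper973 gives the exact proportion `c2 / 2` of the good `D` among all the
squarefree `D ≡ 1` modulo `4` prime to `7`. Here the same in every residue class `a` modulo `m`,
`56 ∣ m`, `a ≡ 1` modulo `4`, `a` prime to `m`. Statements of the parts.
-/

set_option autoImplicit false
set_option linter.unusedVariables false

open scoped Classical

namespace Pool.Agent.N843.DM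

open Finset
open Pool.Agent.N973.ND
open Pool.Agent.Y703.CQ (c2)
open Pool.Agent.Y703.CX (sm la)

/-- the admissible classes -/
structure Ma (m a : ℕ) : Prop where
  pos : 0 < m
  dvd : 56 ∣ m
  cop : Nat.Coprime a m
  one : a % 4 = 1

/-- the sets of the class whose product is `a` modulo `m`, with product at most `X` -/
noncomputable def SM (m a X : ℕ) : Finset (Finset ℕ) :=
  (SS X).filter fun S => (∏ p ∈ S, p) % m = a % m

/-- the regular sets -/
noncomputable def RM (m a X z H k V : ℕ) : Finset (Finset ℕ) :=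
  (RR X z H k V).filter fun S => (∏ p ∈ S, p) % m = a % m

/-- DM-KEY: the sum over the boxes (after `N226/ND/KEY.lean`; the boxes are cut by the residues of
the primes modulo `m`, hence the factor `m ^ k`). -/
def M_KEY : Prop := S_EQ → S_LA → S_BOX → ∀ (m a : ℕ), Ma m a →
  ∀ (A : ℕ → ℕ → ZMod 2) (b : ℕ → ZMod 2) (C : ℝ), RecA A → BilP A C →
  ∀ (X z H k V N : ℕ) (κ : ℝ), 1 ≤ X → 1 ≤ H → 1 ≤ z → 0 ≤ κ → C ≤ κ ^ 24 * z →
  (H : ℝ) * Real.log X < N →
  |(((RM m a X z H k V).filter fun S => Nd (sm z S) (la z S) ∧ Gd A b S).card : ℝ) -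
      c2 * (((RM m a X z H k V).filter fun S => Nd (sm z S) (la z S)).card : ℝ)| ≤
    2 * (1 / 4 : ℝ) ^ V * ((RM m a X z H k V).card : ℝ) +
    (m : ℝ) ^ (2 * k + 2) * ((9 * N + 9 : ℝ) ^ k * (3 ^ (9 * k ^ 2 + 9) * κ) *
      (X * (1 + Real.log X)))

/-- DM-LOW: the class has positive density. -/
def M_LOW : Prop := ∀ (m a : ℕ), Ma m a →
  ∃ (c : ℝ) (X₀ : ℕ), 0 < c ∧ ∀ X : ℕ, X₀ ≤ X → c * X ≤ ((SM m a X).card : ℝ)

/-- DM-KD: the distribution of `kd` (after `N186/ND/KD.lean`; the twist by a nontrivial character of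
`(ℤ/m)ˣ` is `o(X)` directly, by the prime number theorem in progressions
`Pool.Agent.H970R2.X.xapl_th_tendsto`). -/
def M_KD : Prop := ∀ (m a : ℕ), Ma m a → ∀ (V : ℕ) (ε : ℝ), 0 < ε → ∃ X₀ : ℕ, ∀ X : ℕ, X₀ ≤ X →
  |(((SM m a X).filter fun S => 2 * (V : ℤ) ≤ kd S).card : ℝ) -
    (1 / 2) * ((SM m a X).card : ℝ)| ≤ ε * X

/-- the proportion of the good sets -/
def M_DQ : Prop := ∀ (m a : ℕ), Ma m a → ∀ (A : ℕ → ℕ → ZMod 2) (b : ℕ → ZMod 2) (C : ℝ),
  RecA A → BilP A C →
  Filter.Tendsto (fun X : ℕ => (((SM m a X).filter (Gd A b)).card : ℝ) / ((SM m a X).card : ℝ))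
    Filter.atTop (nhds (c2 / 2))

/-- FINAL, in terms of the numbers `D` -/
def M_DEN : Prop := ∀ (m a : ℕ), Ma m a → ∀ (A : ℕ → ℕ → ZMod 2) (b : ℕ → ZMod 2) (C : ℝ),
  RecA A → BilP A C →
  Filter.Tendsto
  (fun X : ℕ => (((Icc 1 X).filter fun D => Squarefree D ∧ D % m = a % m ∧
      Gd A b D.primeFactors).card : ℝ) /
    (((Icc 1 X).filter fun D => Squarefree D ∧ D % m = a % m).card : ℝ))
  Filter.atTop (nhds (c2 / 2))

end Pool.Agent.N843.DM
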